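import Pool.Agent.Y719.BP.One

/-!
# One modulus on the edge decides modularity modulo `p` over imaginary quadratic fields

Let `K` be an imaginary quadratic field, or any number field which is Galois over `ℚ`, and `ρ` an
irreducible representation of `G_K` over the algebraic closure of `𝔽_p`, for example `E[p]` for an
elliptic curve `E` over `K`.  Let `T` be an injective multiplicative map from the algebraic closure of
`𝔽_p` to `ℂ`, for example the Teichmueller lift followed by an embedding.  The Euler product `L(T ρ, s)`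
with the eigenvalues `T(α)` for the eigenvalues `α` of the Frobenius elements is the `L`-function of the
Brauer character of `ρ`.  Let `W_j` be finitely many irreducible representations, for example those
which Scholze attaches to mod `p` eigenforms `c_j`, and `m_j` integers of any sign.  If the logarithm of
`|L(T ρ, s)| / ∏_j |L(T W_j, s)| ^ m_j` on the line `Re s = 1` is concentrated, for example constant on
a set of positive upper density, then there is `j` with `m_j > 0` such that `ρ` is isomorphic to `W_j`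
composed with the conjugation by an automorphism `σ` of the algebraic closure of `K`; this is the
representation of `c_j` or of its image under complex conjugation, which is an eigenform of conjugate
level.  No twist is used.
-/

set_option autoImplicit false

namespace Pool.Agent.Results.MP_3099cf_nt.OneModulus

open NumberField IsDedekindDomain MeasureTheory Filter Topology Polynomial

/-- The lift to `ℂ` of a monic polynomial `Q` over the algebraic closure of `𝔽_p`:
`∏ (1 - T(α) X)` for the roots `α` of `Q`. -/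
noncomputable def lift {p : ℕ} [Fact p.Prime] (T : AlgebraicClosure (ZMod p) →*₀ ℂ)
    (Q : (AlgebraicClosure (ZMod p))[X]) : ℂ[X] :=
  (Q.roots.map fun α => 1 - C (T α) * X).prod

section
variable {K : Type} [Field K] [NumberField K] {p : ℕ} [Fact p.Prime] {n : ℕ}

/-- `g` is a Frobenius element at `v`: for some maximal ideal `Q` above `v` of the ring of all
algebraic integers, `g x ≡ x ^ N(v)` modulo `Q` for all `x`. -/
def Frobenius (v : HeightOneSpectrum (𝓞 K)) (g : Gal(AlgebraicClosure K/K)) : Prop :=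
  ∃ Q : Ideal (𝓞 (AlgebraicClosure K)), Q.IsMaximal ∧
    Q.comap (algebraMap (𝓞 K) (𝓞 (AlgebraicClosure K))) = v.asIdeal ∧
    ∀ x : 𝓞 (AlgebraicClosure K), g • x - x ^ Ideal.absNorm v.asIdeal ∈ Q

/-- `g` lies in an inertia group at `v`: for some maximal ideal `Q` above `v` of the ring of all
algebraic integers, `g x ≡ x` modulo `Q` for all `x`. -/
def Inertia (v : HeightOneSpectrum (𝓞 K)) (g : Gal(AlgebraicClosure K/K)) : Prop :=
  ∃ Q : Ideal (𝓞 (AlgebraicClosure K)), Q.IsMaximal ∧
    Q.comap (algebraMap (𝓞 K) (𝓞 (AlgebraicClosure K))) = v.asIdeal ∧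
    ∀ x : 𝓞 (AlgebraicClosure K), g • x - x ∈ Q

/-- The matrix of `g`. -/
noncomputable def matrix
    (ρ : Gal(AlgebraicClosure K/K) →* GL (Fin n) (AlgebraicClosure (ZMod p)))
    (g : Gal(AlgebraicClosure K/K)) : Matrix (Fin n) (Fin n) (AlgebraicClosure (ZMod p)) :=
  (ρ g : GL (Fin n) (AlgebraicClosure (ZMod p)))

/-- `ρ` is continuous, for the discrete topology: its kernel is open. -/
def Cont (ρ : Gal(AlgebraicClosure K/K) →* GL (Fin n) (AlgebraicClosure (ZMod p))) : Prop :=
  IsOpen (ρ.ker : Set Gal(AlgebraicClosure K/K))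

/-- `ρ` is irreducible. -/
def Irreducible (ρ : Gal(AlgebraicClosure K/K) →* GL (Fin n) (AlgebraicClosure (ZMod p))) :
    Prop :=
  0 < n ∧ ∀ W : Submodule (AlgebraicClosure (ZMod p)) (Fin n → AlgebraicClosure (ZMod p)),
    (∀ g, ∀ x ∈ W, (matrix ρ g).mulVec x ∈ W) → W = ⊥ ∨ W = ⊤

/-- `v` lies above a prime number in `S`. -/
def Bad (S : Finset ℕ) (v : HeightOneSpectrum (𝓞 K)) : Prop :=
  ∃ q ∈ S, (q : 𝓞 K) ∈ v.asIdeal

/-- `Q` is the family of characteristic polynomials of `ρ` away from `S`: `Q_v` is `1` for `v` above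
`S`; for all other `v` the representation is unramified and `Q_v` is the characteristic polynomial of
`ρ(g)` for the Frobenius elements `g` at `v`. -/
structure FrobeniusPolynomials (S : Finset ℕ)
    (ρ : Gal(AlgebraicClosure K/K) →* GL (Fin n) (AlgebraicClosure (ZMod p)))
    (Q : HeightOneSpectrum (𝓞 K) → (AlgebraicClosure (ZMod p))[X]) : Prop where
  bad : ∀ v, Bad S v → Q v = 1
  unramified : ∀ v, ¬ Bad S v → ∀ g, Inertia v g → ρ g = 1
  frobenius : ∀ v, ¬ Bad S v → ∀ g, Frobenius v g → (matrix ρ g).charpoly = Q v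

/-- The Euler product with the lifts of the polynomials `Q_v`: the product of
`(1 - T(α) Nv^{-s})⁻¹` over the places `v` and the roots `α` of `Q_v`. -/
noncomputable def L (T : AlgebraicClosure (ZMod p) →*₀ ℂ)
    (Q : HeightOneSpectrum (𝓞 K) → (AlgebraicClosure (ZMod p))[X]) (s : ℂ) : ℂ :=
  ∏' v : HeightOneSpectrum (𝓞 K), ((lift T (Q v)).eval ((Ideal.absNorm v.asIdeal : ℂ) ^ (-s)))⁻¹

/-- The limit of `|L(1 + σ + iτ)|` for `σ → 0`, `σ > 0`. -/
noncomputable def edgeAbs (T : AlgebraicClosure (ZMod p) →*₀ ℂ)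
    (Q : HeightOneSpectrum (𝓞 K) → (AlgebraicClosure (ZMod p))[X]) (τ : ℝ) : ℝ :=
  limUnder (𝓝[>] (0 : ℝ)) fun σ : ℝ => ‖L T Q (1 + σ + τ * Complex.I)‖

/-- `g' = σ g σ⁻¹`. -/
def Conj (σ : AlgebraicClosure K ≃+* AlgebraicClosure K) (g g' : Gal(AlgebraicClosure K/K)) : Prop :=
  ∀ x, g' (σ x) = σ (g x)

end

/-- The values of `f` are concentrated: there is `δ > 0` such that for every `ε > 0` there are
arbitrarily large `T` and a real number `x` with `|f - x| < ε` on a subset of `(0, T]` of measure at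
least `δ T`. -/
def Concentrated (f : ℝ → ℝ) : Prop :=
  ∃ δ : ℝ, 0 < δ ∧ ∀ ε : ℝ, 0 < ε → ∃ᶠ T : ℝ in atTop, ∃ x : ℝ,
    ENNReal.ofReal (δ * T) ≤ volume {τ | τ ∈ Set.Ioc 0 T ∧ |f τ - x| < ε}

/-- **One modulus decides about modularity modulo `p`.**  Let `K` be a number field, Galois over `ℚ`,
for example imaginary quadratic, `ρ` (dimension `n`) and `W_j` (dimension `N_j`) irreducible continuous
representations of `G_K` over the algebraic closure of `𝔽_p`, unramified away from `S`, with the
characteristic polynomials `Q` and `R_j` of the Frobenius elements, and `m_j` integers.  If the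
logarithm of `|L(T ρ, s)| / ∏_j |L(T W_j, s)| ^ m_j` on the line `Re s = 1` is concentrated, then there
are `j` with `m_j > 0` and an automorphism `σ` of the algebraic closure of `K` such that `ρ` is
isomorphic to `g ↦ W_j(σ g σ⁻¹)`. -/
theorem result (K : Type) [Field K] [NumberField K] [IsGalois ℚ K] (p : ℕ) [Fact p.Prime]
    (T : AlgebraicClosure (ZMod p) →*₀ ℂ) (hT : Function.Injective T) (S : Finset ℕ)
    (hS : ∀ q ∈ S, q.Prime) (κ : Type) [Fintype κ] (n : ℕ) (N : κ → ℕ) (m : κ → ℤ)
    (ρ : Gal(AlgebraicClosure K/K) →* GL (Fin n) (AlgebraicClosure (ZMod p)))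
    (W : ∀ j, Gal(AlgebraicClosure K/K) →* GL (Fin (N j)) (AlgebraicClosure (ZMod p)))
    (Q : HeightOneSpectrum (𝓞 K) → (AlgebraicClosure (ZMod p))[X])
    (R : κ → HeightOneSpectrum (𝓞 K) → (AlgebraicClosure (ZMod p))[X])
    (hρ : Cont ρ) (hirr : Irreducible ρ) (hQ : FrobeniusPolynomials S ρ Q)
    (hW : ∀ j, Cont (W j)) (hWirr : ∀ j, Irreducible (W j))
    (hR : ∀ j, FrobeniusPolynomials S (W j) (R j))
    (hc : Concentrated fun τ => Real.log (edgeAbs T Q τ) -
      ∑ j, m j * Real.log (edgeAbs T (R j) τ)) :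
    ∃ j, 0 < m j ∧ ∃ σ : AlgebraicClosure K ≃+* AlgebraicClosure K,
      ∃ E : (Fin n → AlgebraicClosure (ZMod p)) ≃ₗ[AlgebraicClosure (ZMod p)]
        (Fin (N j) → AlgebraicClosure (ZMod p)),
      ∀ g g', Conj σ g g' → ∀ x, E ((matrix ρ g).mulVec x) = (matrix (W j) g').mulVec (E x) := by
  classical
  have hconj : ∀ (σ : AlgebraicClosure K ≃+* AlgebraicClosure K)
      (g g' : Gal(AlgebraicClosure K/K)), Conj σ g g' → g' = Pool.Agent.Y719.NG.cj σ g := by
    intro σ g g' h
    apply AlgEquiv.ext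
    intro x
    have h1 := h (σ.symm x)
    rw [RingEquiv.apply_symm_apply] at h1
    exact h1
  have he : ∀ (Q : HeightOneSpectrum (𝓞 K) → (AlgebraicClosure (ZMod p))[X]) (τ : ℝ),
      Pool.Agent.Y719.EL.N.eA 0 (fun v => Pool.Agent.Y719.BP.lift T (Q v)) (fun _ => 1) τ =
        edgeAbs T Q τ := by
    intro Q τ
    have hL : ∀ s, Pool.Agent.Y719.EL.N.LS (fun v => Pool.Agent.Y719.BP.lift T (Q v))
        (fun _ => 1) s = L T Q s := by
      intro s
      unfold Pool.Agent.Y719.EL.N.LS L
      refine tprod_congr fun v => ?_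
      rw [one_mul]
      rfl
    unfold Pool.Agent.Y719.EL.N.eA edgeAbs
    congr 1
    funext σ
    rw [hL]
    congr 2
    push_cast
    ring
  have hF : ∀ {N : ℕ} (W : Gal(AlgebraicClosure K/K) →* GL (Fin N) (AlgebraicClosure (ZMod p)))
      (R : HeightOneSpectrum (𝓞 K) → (AlgebraicClosure (ZMod p))[X]),
      FrobeniusPolynomials S W R →
      Pool.Agent.Y719.BP.Fac (Pool.Agent.Y719.NG.bad K S) W R := fun W R h =>
    ⟨h.bad, fun v hv g hg => h.frobenius v hv g hg⟩
  obtain ⟨j, hj, σ, E, hE⟩ := Pool.Agent.Y719.BP.modp_one (m := m) T hT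
    (Pool.Agent.Y719.NG.bad K S)
    (Pool.Agent.Y719.NG.bad_finite hS) (fun τ v hv => (Pool.Agent.Y719.NG.bad_pl τ v).1 hv)
    hρ hW hirr hWirr (hF ρ Q hQ) (fun j => hF (W j) (R j) (hR j)) (by
      simp_rw [he]
      exact hc)
  refine ⟨j, hj, σ, E, fun g g' hg x => ?_⟩
  rw [hconj σ g g' hg]
  exact hE g x

end Pool.Agent.Results.MP_3099cf_nt.OneModulus
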